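import Pool.Agent.H.MP_d9e773_al.helper54.NotOre

set_option autoImplicit false

namespace Pool.Agent.Results.MP_d9e773_al.CharTwo

section Defs

variable (k H : Type) [Field k] [Ring H] [HopfAlgebra k H]

/-- `C` is a subcoalgebra: `Δ(C) ⊆ C ⊗ C`. -/
def IsSubcoalgebra (C : Submodule k H) : Prop :=
  ∀ c ∈ C, Coalgebra.comul (R := k) c ∈ LinearMap.range (TensorProduct.map C.subtype C.subtype)

/-- `C` is a simple subcoalgebra: it is nonzero and has no nonzero proper subcoalgebra. -/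
def IsSimpleSubcoalgebra (C : Submodule k H) : Prop :=
  IsSubcoalgebra k H C ∧ C ≠ ⊥ ∧ ∀ D ≤ C, IsSubcoalgebra k H D → D ≠ ⊥ → D = C

/-- `H` is connected: its coradical, the sum of its simple subcoalgebras, is `k 1`. -/
def IsConnected : Prop :=
  sSup {C | IsSimpleSubcoalgebra k H C} = Submodule.span k {(1 : H)}

/-- The Gelfand-Kirillov dimension of the affine algebra `H` is `d`: for every finite-dimensional
generating subspace `V` containing `1`, `limsup log dim V^n / log n = d`. -/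
def HasGKDim (d : EReal) : Prop :=
  ∀ V : Submodule k H, FiniteDimensional k V → (1 : H) ∈ V → Algebra.adjoin k (V : Set H) = ⊤ →
    Filter.limsup (fun n : ℕ =>
      (((Real.log (Module.finrank k ↥(V ^ n) : ℝ)) / Real.log (n : ℝ) : ℝ) : EReal))
      Filter.atTop = d

/-- `B` is a Hopf subalgebra. -/
def IsHopfSubalgebra (B : Subalgebra k H) : Prop :=
  IsSubcoalgebra k H (Subalgebra.toSubmodule B) ∧
    ∀ b ∈ B, HopfAlgebraStruct.antipode (R := k) b ∈ B

/-- `B = A[X; σ, δ]`: for an automorphism `σ` and a `σ`-derivation `δ` of `A` one has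
`X a = σ(a) X + δ(a)` for `a ∈ A`, and `B` is a free left `A`-module with basis
`1, X, X², …`. -/
def IsOreStep (A B : Subalgebra k H) (X : H) : Prop :=
  ∃ (σ : A ≃ₐ[k] A) (δ : A →ₗ[k] A), (∀ a b : A, δ (a * b) = σ a * δ b + δ a * b) ∧
    (∀ a : A, X * (a : H) = (σ a : H) * X + (δ a : H)) ∧
    (∀ b : H, b ∈ B ↔ ∃ c : ℕ →₀ A, b = c.sum fun j a => (a : H) * X ^ j) ∧
    ∀ c : ℕ →₀ A, (c.sum fun j a => (a : H) * X ^ j) = 0 → c = 0

/-- `H` is an iterated Hopf Ore extension of `k`: there are `n ≥ 1` and Hopf subalgebras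
`k = A 0 ⊆ A 1 ⊆ ⋯ ⊆ A n = H` with `A (i + 1) = (A i)[X i; σ, δ]`. -/
def IsIHOE : Prop :=
  ∃ n : ℕ, 1 ≤ n ∧ ∃ (A : ℕ → Subalgebra k H) (X : ℕ → H), A 0 = ⊥ ∧ A n = ⊤ ∧
    (∀ i, i < n → IsOreStep k H (A i) (A (i + 1)) (X i)) ∧
    ∀ i, 1 ≤ i → i ≤ n → IsHopfSubalgebra k H (A i)

end Defs

open Pool.Agent.HopfTwo Pool.Agent.HopfTwo.HH MvPolynomial

section Chain

variable {k H : Type} [Field k] [Ring H] [HopfAlgebra k H]

theorem chain_eq {n : ℕ} {A : ℕ → Subalgebra k H} {X : ℕ → H} (h0 : A 0 = ⊥)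
    (hore : ∀ i, i < n → IsOreStep k H (A i) (A (i + 1)) (X i)) (i : ℕ) (hi : i ≤ n) :
    A i = Algebra.adjoin k (X '' {j | j < i}) := by
  induction i with
  | zero => simp [h0]
  | succ i ih =>
    have ih' := ih (by omega)
    obtain ⟨σ, δ, -, -, hmem, -⟩ := hore i (by omega)
    have hle : Algebra.adjoin k (X '' {j | j < i}) ≤ Algebra.adjoin k (X '' {j | j < i + 1}) := by
      apply Algebra.adjoin_mono
      rintro _ ⟨l, hl, rfl⟩
      exact ⟨l, Nat.lt_succ_of_lt hl, rfl⟩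
    have hXi : X i ∈ Algebra.adjoin k (X '' {j | j < i + 1}) :=
      Algebra.subset_adjoin ⟨i, Nat.lt_succ_self i, rfl⟩
    apply le_antisymm
    · intro b hb
      obtain ⟨c, rfl⟩ := (hmem b).1 hb
      refine sum_mem fun j _ => mul_mem ?_ (pow_mem hXi j)
      apply hle
      rw [← ih']
      exact (c j).2
    · rw [Algebra.adjoin_le_iff]
      rintro _ ⟨l, hl, rfl⟩
      rcases Nat.lt_succ_iff_lt_or_eq.1 hl with hl' | rfl
      · have h1 : X l ∈ A i := by
          rw [ih']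
          exact Algebra.subset_adjoin ⟨l, hl', rfl⟩
        refine (hmem _).2 ⟨Finsupp.single 0 ⟨X l, h1⟩, ?_⟩
        rw [Finsupp.sum_single_index (by simp)]
        simp
      · refine (hmem _).2 ⟨Finsupp.single 1 1, ?_⟩
        rw [Finsupp.sum_single_index (by simp)]
        simp

theorem free_of_step {A B : Subalgebra k H} {X : H} (h : IsOreStep k H A B X) (m : ℕ)
    (c : ℕ → H) (hc : ∀ j, c j ∈ A) (h0 : ∑ j ∈ Finset.range m, c j * X ^ j = 0) :
    ∀ j, j < m → c j = 0 := by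
  classical
  obtain ⟨σ, δ, -, -, -, hfree⟩ := h
  let c' : ℕ →₀ A := Finsupp.onFinset (Finset.range m)
    (fun j => if j < m then ⟨c j, hc j⟩ else 0) (by
      intro j hj
      rw [Finset.mem_range]
      by_contra hcon
      exact hj (if_neg hcon))
  have h1 : c' = 0 := by
    apply hfree
    rw [Finsupp.onFinset_sum _ (by simp), ← h0]
    refine Finset.sum_congr rfl fun j hj => ?_
    rw [if_pos (Finset.mem_range.1 hj)]
  intro j hj
  have h2 := congrArg (fun f : ℕ →₀ A => ((f j : A) : H)) h1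
  simpa [c', hj] using h2

end Chain

variable {k : Type} [Field k] [CharP k 2]

theorem hh_connected : IsConnected k (HH k) := by
  have h1 : IsSubcoalgebra k (HH k) (Submodule.span k {(1 : HH k)}) := by
    intro c hc
    obtain ⟨a, rfl⟩ := Submodule.mem_span_singleton.1 hc
    have h1 : (1 : HH k) ∈ Submodule.span k {(1 : HH k)} := Submodule.mem_span_singleton_self 1
    refine ⟨a • (⟨1, h1⟩ ⊗ₜ[k] ⟨1, h1⟩), ?_⟩
    rw [map_smul, TensorProduct.map_tmul, map_smul]
    congr 1
    exact (Bialgebra.comul_one (R := k)).symm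
  have hne : Submodule.span k {(1 : HH k)} ≠ ⊥ := by
    rw [Ne, Submodule.span_singleton_eq_bot]
    exact one_ne_zero
  have hle : ∀ C : Submodule k (HH k), IsSubcoalgebra k (HH k) C → C ≠ ⊥ →
      Submodule.span k {(1 : HH k)} ≤ C := by
    intro C hC hC0
    rw [Submodule.span_singleton_le_iff_mem]
    exact connected C hC0 hC
  apply le_antisymm
  · refine sSup_le fun C hC => ?_
    exact (hC.2.2 _ (hle C hC.1 hC.2.1) h1 hne).ge
  · exact le_sSup ⟨h1, hne, fun D hD hDc hD0 => le_antisymm hD (hle D hDc hD0)⟩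

theorem not_ihoe [Infinite k] : ¬ IsIHOE k (HH k) := by
  rintro ⟨n, hn, A, X, h0, htop, hore, -⟩
  have hA : ∀ i, (fun i => Algebra.adjoin k (X '' {j | j < i})) i =
      Algebra.adjoin k (X '' {j | j < i}) := fun i => rfl
  have heq := chain_eq h0 hore
  have hfree : ∀ i, i < n → ∀ m : ℕ, ∀ c : ℕ → HH k,
      (∀ j, c j ∈ Algebra.adjoin k (X '' {j | j < i})) →
      ∑ j ∈ Finset.range m, c j * X i ^ j = 0 → ∀ j, j < m → c j = 0 := by
    intro i hi m c hc
    exact free_of_step (hore i hi) m c (by rw [heq i hi.le]; exact hc)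
  have hrel : ∀ i, i < n → ∀ a ∈ Algebra.adjoin k (X '' {j | j < i}),
      ∃ b ∈ Algebra.adjoin k (X '' {j | j < i}),
        X i * a - b * X i ∈ Algebra.adjoin k (X '' {j | j < i}) := by
    intro i hi
    rw [← heq i hi.le]
    intro a ha
    obtain ⟨σ, δ, -, hcomm, -, -⟩ := hore i hi
    refine ⟨σ ⟨a, ha⟩, (σ ⟨a, ha⟩).2, ?_⟩
    have h1 := hcomm ⟨a, ha⟩
    have h2 : X i * a - (σ ⟨a, ha⟩ : HH k) * X i = (δ ⟨a, ha⟩ : HH k) := by
      rw [show X i * a = (σ ⟨a, ha⟩ : HH k) * X i + (δ ⟨a, ha⟩ : HH k) from h1]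
      abel
    rw [h2]
    exact (δ ⟨a, ha⟩).2
  have htop' : Algebra.adjoin k (X '' {j | j < n}) = ⊤ := by rw [← heq n le_rfl, htop]
  rcases Nat.lt_or_ge n 3 with h3 | h3
  · interval_cases n
    · exact no_one X _ hA htop'
    · exact no_two 2 X _ hA hfree hrel rfl htop'
  · exact no_three n X _ hA hfree h3

theorem finiteType : Algebra.FiniteType k (HH k) := by
  classical
  refine ⟨⟨{io (MvPolynomial.X 0), io (MvPolynomial.X 1), zz}, ?_⟩⟩
  rw [← adjoin_eq_top]
  simp

/-- **Over every infinite field of characteristic `2` there is an affine connected Hopf domain of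
Gelfand-Kirillov dimension `2` which is not an iterated Hopf Ore extension.** -/
theorem result (k : Type) [Field k] [CharP k 2] [Infinite k] :
    ∃ (H : Type) (_ : Ring H) (_ : HopfAlgebra k H), IsDomain H ∧ Algebra.FiniteType k H ∧
      IsConnected k H ∧ HasGKDim k H 2 ∧ ¬ IsIHOE k H :=
  ⟨HH k, inferInstance, inferInstance, inferInstance, finiteType, hh_connected,
    fun V hV h1 h => gk V hV h1 h, not_ihoe⟩

end Pool.Agent.Results.MP_d9e773_al.CharTwo
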